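import Mathlib
import Pool.Agent.H391R2.T4.Red
import Pool.Agent.W200.IJ.BC
import Pool.Agent.W200.IG.HD

/-!
# From two variables to one
-/

set_option autoImplicit false

namespace Pool.Agent.TH59.WX

open Polynomial
open Pool.Agent.H391R2.T4 (RegSol)
open Pool.Agent.H391R2 (exists_clear)

set_option linter.unusedSectionVars false

section frac

variable (K : Type) [Field K]

/-- The polynomials in two variables inside `K(t)(u)`. -/
noncomputable def two : K[X][X] →+* RatFunc (RatFunc K) :=
  (algebraMap (RatFunc K)[X] (RatFunc (RatFunc K))).comp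
    (mapRingHom (algebraMap K[X] (RatFunc K)))

theorem two_injective : Function.Injective (two K) :=
  (IsFractionRing.injective (RatFunc K)[X] (RatFunc (RatFunc K))).comp
    (map_injective _ (IsFractionRing.injective K[X] (RatFunc K)))

theorem two_surj (z : RatFunc (RatFunc K)) : ∃ x y : K[X][X], z = two K x / two K y := by
  obtain ⟨p, q, hq, rfl⟩ := IsFractionRing.div_surjective (RatFunc K)[X] z
  obtain ⟨c, P, hc, hP⟩ := exists_clear (R := K[X]) p
  obtain ⟨d, Q, hd, hQ⟩ := exists_clear (R := K[X]) q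
  have hinj := IsFractionRing.injective K[X] (RatFunc K)
  have hc' : (algebraMap K[X] (RatFunc K) c) ≠ 0 := (map_ne_zero_iff _ hinj).2 hc
  have hd' : (algebraMap K[X] (RatFunc K) d) ≠ 0 := (map_ne_zero_iff _ hinj).2 hd
  have hq0 : q ≠ 0 := nonZeroDivisors.ne_zero hq
  have hinj2 := IsFractionRing.injective (RatFunc K)[X] (RatFunc (RatFunc K))
  refine ⟨C d * P, C c * Q, ?_⟩
  have h1 : two K (C d * P) = algebraMap (RatFunc K)[X] (RatFunc (RatFunc K))
      (C (algebraMap K[X] (RatFunc K) d) * (C (algebraMap K[X] (RatFunc K) c) * p)) := by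
    unfold two
    rw [RingHom.comp_apply, map_mul, coe_mapRingHom, map_C, hP]
  have h2 : two K (C c * Q) = algebraMap (RatFunc K)[X] (RatFunc (RatFunc K))
      (C (algebraMap K[X] (RatFunc K) c) * (C (algebraMap K[X] (RatFunc K) d) * q)) := by
    unfold two
    rw [RingHom.comp_apply, map_mul, coe_mapRingHom, map_C, hQ]
  rw [h1, h2]
  have h3 : ∀ r : RatFunc K, r ≠ 0 → algebraMap (RatFunc K)[X] (RatFunc (RatFunc K)) (C r) ≠ 0 :=
    fun r hr => (map_ne_zero_iff _ hinj2).2 (C_ne_zero.2 hr)
  have h4 := h3 _ hc'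
  have h5 := h3 _ hd'
  have h6 : algebraMap (RatFunc K)[X] (RatFunc (RatFunc K)) q ≠ 0 :=
    (map_ne_zero_iff _ hinj2).2 hq0
  simp only [map_mul]
  field_simp

/-- The polynomials in two variables, as `MvPolynomial`. -/
noncomputable def eqv2 : MvPolynomial (Option Unit) K ≃ₐ[K] K[X][X] :=
  (MvPolynomial.optionEquivLeft K Unit).trans
    (Polynomial.mapAlgEquiv (MvPolynomial.uniqueAlgEquiv K Unit))

noncomputable def tw : MvPolynomial (Option Unit) K →+* RatFunc (RatFunc K) :=
  (two K).comp (eqv2 K : MvPolynomial (Option Unit) K →+* K[X][X])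

theorem tw_C (x : K) : tw K (MvPolynomial.C x) = algebraMap (RatFunc K) (RatFunc (RatFunc K))
    (algebraMap K (RatFunc K) x) := by
  have h1 : (eqv2 K) (MvPolynomial.C x) = C (C x) := by
    have h2 := (eqv2 K).commutes x
    exact h2
  unfold tw
  rw [RingHom.comp_apply]
  change two K (eqv2 K (MvPolynomial.C x)) = _
  rw [h1]
  unfold two
  rw [RingHom.comp_apply, coe_mapRingHom, map_C]
  rfl

end frac

section collapse

variable (K L : Type) [Field K] [Infinite K] [Field L] [Algebra K L] [FiniteDimensional K L]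
  [IsGalois K L]

theorem collapse_core {X X' : Type} [Group X] [Finite X] [Group X'] (α : X →* (L ≃ₐ[K] L))
    (δ : X' →* (L ≃ₐ[K] L)) (r : X →* X') (hr : ∀ x, δ (r x) = α x)
    (P : Type) [Field P] [Algebra K P]
    (F' : Type) [Field F'] [Algebra P F'] [Algebra L F'] [Algebra K F']
    [IsScalarTower K P F'] [IsScalarTower K L F'] (γ' : (F' ≃ₐ[P] F') ≃* X')
    (hγ1 : ∀ (σ : F' ≃ₐ[P] F') (x : L),
        σ (algebraMap L F' x) = algebraMap L F' (δ (γ' σ) x))
    (hγ2 : ∀ y : F', IsAlgebraic L y → y ∈ Set.range (algebraMap L F'))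
    (E : Type) [Field E] [Algebra P E] [Algebra (MvPolynomial (Option Unit) K) E]
    [IsFractionRing (MvPolynomial (Option Unit) K) E]
    (hKE : ∀ x : K, algebraMap (MvPolynomial (Option Unit) K) E (MvPolynomial.C x) =
      algebraMap P E (algebraMap K P x))
    (F : Type) [Field F] [Algebra E F] [Algebra F' F] [Algebra P F] [IsScalarTower P E F]
    [IsScalarTower P F' F] [FiniteDimensional E F] [IsGalois E F] (γ : (F ≃ₐ[E] F) ≃* X)
    (h1 : ∀ (σ : F ≃ₐ[E] F) (x : F'),
        σ (algebraMap F' F x) = algebraMap F' F ((γ'.symm.toMonoidHom.comp r) (γ σ) x))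
    (h2 : ∀ y : F, IsAlgebraic F' y → y ∈ Set.range (algebraMap F' F)) : RegSol K L X α := by
  let aKE : Algebra K E := ((algebraMap P E).comp (algebraMap K P)).toAlgebra
  have t1 : IsScalarTower K (MvPolynomial (Option Unit) K) E :=
    IsScalarTower.of_algebraMap_eq fun x => (hKE x).symm
  let aKF : Algebra K F := ((algebraMap F' F).comp (algebraMap K F')).toAlgebra
  let aLF : Algebra L F := ((algebraMap F' F).comp (algebraMap L F')).toAlgebra
  have t2 : IsScalarTower K E F := IsScalarTower.of_algebraMap_eq fun x => by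
    change algebraMap F' F (algebraMap K F' x) = algebraMap E F (algebraMap P E
      (algebraMap K P x))
    rw [IsScalarTower.algebraMap_apply K P F',
      ← IsScalarTower.algebraMap_apply P F' F,
      ← IsScalarTower.algebraMap_apply P E F]
  have t3 : IsScalarTower K L F := IsScalarTower.of_algebraMap_eq fun x => by
    change algebraMap F' F (algebraMap K F' x) = algebraMap F' F (algebraMap L F'
      (algebraMap K L x))
    rw [← IsScalarTower.algebraMap_apply K L F']
  have t4 : IsScalarTower L F' F := IsScalarTower.of_algebraMap_eq fun x => rfl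
  refine Pool.Agent.W200.IJ.taskA K L X α (Option Unit) E F γ ?_ ?_
  · intro σ x
    change σ (algebraMap F' F (algebraMap L F' x)) = algebraMap F' F (algebraMap L F' (α (γ σ) x))
    rw [h1]
    congr 1
    change (γ'.symm (r (γ σ))) (algebraMap L F' x) = _
    rw [hγ1, MulEquiv.apply_symm_apply, hr]
  · intro y hy
    have h3 : IsAlgebraic F' y := hy.tower_top F'
    obtain ⟨z, hz⟩ := h2 y h3
    have h4 : IsAlgebraic L z := by
      rw [← hz, isAlgebraic_algebraMap_iff (algebraMap F' F).injective] at hy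
      exact hy
    obtain ⟨w, hw⟩ := hγ2 z h4
    refine ⟨w, ?_⟩
    rw [← hz, ← hw]
    rfl

/-- A regular solution in two steps gives a regular solution. -/
theorem collapse {X X' : Type} [Group X] [Finite X] [Group X'] (α : X →* (L ≃ₐ[K] L))
    (δ : X' →* (L ≃ₐ[K] L)) (r : X →* X') (hr : ∀ x, δ (r x) = α x)
    (F' : Type) [Field F'] [Algebra (RatFunc K) F'] [Algebra L F'] [Algebra K F']
    [IsScalarTower K (RatFunc K) F'] [IsScalarTower K L F'] [FiniteDimensional (RatFunc K) F']
    [IsGalois (RatFunc K) F'] (γ' : (F' ≃ₐ[RatFunc K] F') ≃* X')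
    (hγ1 : ∀ (σ : F' ≃ₐ[RatFunc K] F') (x : L),
        σ (algebraMap L F' x) = algebraMap L F' (δ (γ' σ) x))
    (hγ2 : ∀ y : F', IsAlgebraic L y → y ∈ Set.range (algebraMap L F'))
    (h : RegSol (RatFunc K) F' X (γ'.symm.toMonoidHom.comp r)) : RegSol K L X α := by
  obtain ⟨F, i1, i2, i3, i4, i5, i6, i7, i8, γ, h1, h2⟩ := h
  let aME : Algebra (MvPolynomial (Option Unit) K) (RatFunc (RatFunc K)) := (tw K).toAlgebra
  have hmap : ∀ w, @algebraMap (MvPolynomial (Option Unit) K) (RatFunc (RatFunc K)) _ _ aME w =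
      tw K w := fun w => rfl
  have hMEinj : Function.Injective (@algebraMap (MvPolynomial (Option Unit) K)
      (RatFunc (RatFunc K)) _ _ aME) :=
    (two_injective K).comp (eqv2 K).injective
  have hfaith : @FaithfulSMul (MvPolynomial (Option Unit) K) (RatFunc (RatFunc K))
      aME.toSMul := (@faithfulSMul_iff_algebraMap_injective _ _ _ _ aME).2 hMEinj
  have hfr : @IsFractionRing (MvPolynomial (Option Unit) K) _ (RatFunc (RatFunc K)) _ aME := by
    refine @IsFractionRing.of_field (MvPolynomial (Option Unit) K) _ (RatFunc (RatFunc K)) _ aME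
      hfaith (fun z => ?_)
    obtain ⟨x, y, hxy⟩ := two_surj K z
    refine ⟨(eqv2 K).symm x, (eqv2 K).symm y, ?_⟩
    have h3 : ∀ w, @algebraMap (MvPolynomial (Option Unit) K) (RatFunc (RatFunc K)) _ _ aME
        ((eqv2 K).symm w) = two K w := by
      intro w
      change two K ((eqv2 K) ((eqv2 K).symm w)) = _
      rw [AlgEquiv.apply_symm_apply]
    rw [h3, h3]
    exact hxy
  exact @collapse_core K L _ _ _ _ _ _ X X' _ _ _ α δ r hr (RatFunc K) _ _ F' _ _ _ _ _ _ γ'
    hγ1 hγ2 (RatFunc (RatFunc K)) _ _ aME hfr (fun x => tw_C K x) F _ _ _ _ _ _ _ _ γ h1 h2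

end collapse

end Pool.Agent.TH59.WX
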