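import Mathlib
import Pool.Agent.H391R2.T4.Gp

/-!
# Automorphisms of wreath products `G ≀ S_n`, `G` with trivial centre, `n` large
-/

set_option autoImplicit false

namespace Pool.Agent.TH59.WX

open Pool.Agent.H391R2 Pool.Agent.H391R2.T4

section gt

variable {G : Type} [Group G] {n : ℕ}

/-- The element `g` in the `i`-th factor of the base group. -/
def sgl (i : Fin n) (g : G) : Wr G n := ⟨Pi.mulSingle i g, 1⟩

theorem sgl_left (i : Fin n) (g : G) (j : Fin n) :
    (sgl i g).left j = if j = i then g else 1 := by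
  simp [sgl, Pi.mulSingle_apply]

theorem sgl_left_self (i : Fin n) (g : G) : (sgl i g).left i = g := by
  rw [sgl_left, if_pos rfl]

theorem sgl_left_ne {i j : Fin n} (h : j ≠ i) (g : G) : (sgl i g).left j = 1 := by
  rw [sgl_left, if_neg h]

theorem sgl_right (i : Fin n) (g : G) : (sgl i g).right = 1 := rfl

theorem wr_ext {x y : Wr G n} (h1 : ∀ i, x.left i = y.left i) (h2 : x.right = y.right) : x = y :=
  SemidirectProduct.ext (funext h1) h2

theorem base_mul_left (x y : Wr G n) (hx : x.right = 1) (i : Fin n) :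
    (x * y).left i = x.left i * y.left i := by
  rw [wr_mul_left, hx]
  rfl

theorem sgl_mul (i : Fin n) (g h : G) : sgl i (g * h) = sgl i g * sgl i h := by
  refine wr_ext (fun j => ?_) ?_
  · rw [base_mul_left _ _ (sgl_right i g), sgl_left, sgl_left, sgl_left]
    by_cases hj : j = i
    · simp [hj]
    · simp [hj]
  · rw [wr_mul_right, sgl_right, sgl_right, sgl_right, mul_one]

theorem sgl_inj {i : Fin n} {g h : G} (e : sgl i g = sgl i h) : g = h := by
  have h1 := congrArg (fun x : Wr G n => x.left i) e
  simpa only [sgl_left_self] using h1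

theorem sgl_one (i : Fin n) : sgl i (1 : G) = 1 := by
  refine wr_ext (fun j => ?_) rfl
  rw [sgl_left]
  by_cases hj : j = i
  · rw [if_pos hj]; rfl
  · rw [if_neg hj]; rfl

/-- Normal subgroups of the order of the base group are equal to it. -/
theorem base_le [Finite G] (hn : 2 * (Nat.card G + 2) ≤ n) (M : Subgroup (Wr G n))
    (hM : M.Normal) (hc : Nat.card M = Nat.card G ^ n) (x : Wr G n) (hx : x ∈ M) :
    x.right = 1 := by
  classical
  by_contra hne
  have hNt : Nontrivial (M.map (SemidirectProduct.rightHom : Wr G n →* Equiv.Perm (Fin n))) := by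
    refine ⟨⟨1, ⟨x.right, ⟨x, hx, rfl⟩⟩, ?_⟩⟩
    intro h
    exact hne (congrArg Subtype.val h).symm
  have hnorm : (M.map (SemidirectProduct.rightHom : Wr G n →* Equiv.Perm (Fin n))).Normal :=
    hM.map _ SemidirectProduct.rightHom_surjective
  have h5 : 5 ≤ Nat.card (Fin n) := by
    rw [Nat.card_eq_fintype_card, Fintype.card_fin]
    have := Nat.card_pos (α := G)
    omega
  have hnn : Nontrivial (Fin n) := Fin.nontrivial_iff_two_le.2 (by omega)
  have h1 := Equiv.Perm.alternatingGroup_le_of_normal h5 hNt
  have h2 : Nat.card (alternatingGroup (Fin n)) ∣ Nat.card G ^ n := by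
    rw [← hc]
    exact (Subgroup.card_dvd_of_le h1).trans (Subgroup.card_map_dvd _ _)
  obtain ⟨p, hp, hp1, hp2⟩ := Nat.exists_prime_lt_and_le_two_mul (Nat.card G + 2) (by omega)
  have h3 : p ∣ Nat.card (alternatingGroup (Fin n)) := by
    have h4 : p ∣ 2 * Nat.card (alternatingGroup (Fin n)) := by
      rw [two_mul_nat_card_alternatingGroup, Nat.card_perm, Nat.card_eq_fintype_card,
        Fintype.card_fin]
      exact (Nat.Prime.dvd_factorial hp).2 (hp2.trans hn)
    rcases (Nat.Prime.dvd_mul hp).1 h4 with h | h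
    · have := Nat.le_of_dvd (by norm_num) h
      omega
    · exact h
  have h6 := hp.dvd_of_dvd_pow (h3.trans h2)
  have := Nat.le_of_dvd Nat.card_pos h6
  omega

theorem card_base [Finite G] :
    Nat.card (SemidirectProduct.rightHom : Wr G n →* Equiv.Perm (Fin n)).ker =
      Nat.card G ^ n := by
  rw [← SemidirectProduct.range_inl_eq_ker_rightHom]
  rw [← Nat.card_congr (MonoidHom.ofInjective
    (SemidirectProduct.inl_injective (N := Fin n → G) (G := Equiv.Perm (Fin n))
      (φ := mulAutArrow))).toEquiv]
  rw [Nat.card_fun, Nat.card_eq_fintype_card (α := Fin n), Fintype.card_fin]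

theorem base_map [Finite G] (hn : 2 * (Nat.card G + 2) ≤ n) (a : MulAut (Wr G n)) (x : Wr G n)
    (hx : x.right = 1) : (a x).right = 1 := by
  have hinj : Function.Injective (a : Wr G n →* Wr G n) := a.injective
  refine base_le hn ((SemidirectProduct.rightHom : Wr G n →* Equiv.Perm (Fin n)).ker.map
    (a : Wr G n →* Wr G n)) ((MonoidHom.normal_ker _).map _ a.surjective) ?_ (a x) ⟨x, hx, rfl⟩
  rw [← card_base (G := G) (n := n)]
  exact (Nat.card_congr (Subgroup.equivMapOfInjective _ _ hinj).toEquiv).symm

theorem base_iff [Finite G] (hn : 2 * (Nat.card G + 2) ≤ n) (a : MulAut (Wr G n)) (x : Wr G n) :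
    (a x).right = 1 ↔ x.right = 1 := by
  refine ⟨fun h => ?_, base_map hn a x⟩
  have h1 := base_map hn a⁻¹ (a x) h
  rwa [MulAut.inv_apply_self] at h1

/-- Elements of the base group that commute with all factors but one. -/
theorem eq_sgl (hZ : ∀ z : G, (∀ g : G, z * g = g * z) → z = 1) (i : Fin n) (x : Wr G n)
    (hx : x.right = 1) (h : ∀ j, j ≠ i → ∀ g : G, x * sgl j g = sgl j g * x) :
    x = sgl i (x.left i) := by
  refine wr_ext (fun j => ?_) hx
  by_cases hj : j = i
  · subst hj
    rw [sgl_left_self]
  · rw [sgl_left_ne hj]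
    refine hZ _ fun g => ?_
    have h1 := congrArg (fun y : Wr G n => y.left j) (h j hj g)
    simpa only [base_mul_left _ _ hx, base_mul_left _ _ (sgl_right j g), sgl_left_self] using h1

theorem sgl_comm {i j : Fin n} (hij : j ≠ i) (g h : G) : sgl i g * sgl j h = sgl j h * sgl i g := by
  refine wr_ext (fun k => ?_) rfl
  rw [base_mul_left _ _ (sgl_right i g), base_mul_left _ _ (sgl_right j h), sgl_left, sgl_left]
  by_cases hi : k = i
  · subst hi
    simp [hij.symm]
  · simp [hi]

/-- The image of a factor contains its components. -/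
theorem comp_mem [Finite G] (hn : 2 * (Nat.card G + 2) ≤ n)
    (hZ : ∀ z : G, (∀ g : G, z * g = g * z) → z = 1) (a : MulAut (Wr G n)) (i k : Fin n) (g : G) :
    ∃ u : G, a (sgl i u) = sgl k ((a (sgl i g)).left k) := by
  set c := (a (sgl i g)).left k with hc
  set b := a⁻¹ (sgl k c) with hb
  have hb1 : b.right = 1 := base_map hn a⁻¹ _ rfl
  have hab : a b = sgl k c := by rw [hb, MulAut.apply_inv_self]
  have hcomm : ∀ j, j ≠ i → ∀ g' : G, b * sgl j g' = sgl j g' * b := by
    intro j hj g'
    apply a.injective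
    rw [map_mul, map_mul, hab]
    have hy : (a (sgl j g')).right = 1 := base_map hn a _ rfl
    have hx : (a (sgl i g)).right = 1 := base_map hn a _ rfl
    have h1 : a (sgl i g) * a (sgl j g') = a (sgl j g') * a (sgl i g) := by
      rw [← map_mul, ← map_mul, sgl_comm hj]
    have h2 := congrArg (fun y : Wr G n => y.left k) h1
    simp only [base_mul_left _ _ hx, base_mul_left _ _ hy] at h2
    refine wr_ext (fun l => ?_) ?_
    · rw [base_mul_left _ _ (sgl_right k c), base_mul_left _ _ hy]
      by_cases hl : l = k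
      · subst hl
        rw [sgl_left_self]
        exact h2
      · rw [sgl_left_ne hl, one_mul, mul_one]
    · rw [wr_mul_right, wr_mul_right, hy, sgl_right]
  refine ⟨b.left i, ?_⟩
  rw [← eq_sgl hZ i b hb1 hcomm, hab]

theorem fix_of_comm (x : Wr G n) (k : Fin n) (c : G) (hc : c ≠ 1)
    (h : x * sgl k c = sgl k c * x) : x.right k = k := by
  by_contra hne
  have h1 := congrArg (fun y : Wr G n => y.left (x.right k)) h
  simp only [wr_mul_left, sgl_right] at h1
  have h2 : x.right⁻¹ (x.right k) = k := by simp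
  have h3 : (1 : Equiv.Perm (Fin n))⁻¹ (x.right k) = x.right k := rfl
  rw [h2, h3, sgl_left_self, sgl_left_ne hne, one_mul] at h1
  exact hc (by simpa using h1)

theorem inr_comm (i : Fin n) (g : G) (σ : Equiv.Perm (Fin n)) (hσ : σ i = i) :
    (SemidirectProduct.inr σ : Wr G n) * sgl i g = sgl i g * SemidirectProduct.inr σ := by
  refine wr_ext (fun k => ?_) rfl
  rw [wr_mul_left, wr_mul_left, SemidirectProduct.left_inr, SemidirectProduct.right_inr]
  have h3 : (sgl i g : Wr G n).right⁻¹ k = k := rfl
  rw [Pi.one_apply, one_mul, Pi.one_apply, mul_one, sgl_left, sgl_left]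
  have h4 : σ⁻¹ k = i ↔ k = i := by
    constructor
    · intro h
      rw [Equiv.Perm.inv_eq_iff_eq, hσ] at h
      exact h
    · intro h
      rw [Equiv.Perm.inv_eq_iff_eq, hσ, h]
  simp only [h4]

/-- The image of a factor has at most one nontrivial component. -/
theorem one_comp [Finite G] (hn : 2 * (Nat.card G + 2) ≤ n)
    (hZ : ∀ z : G, (∀ g : G, z * g = g * z) → z = 1) (a : MulAut (Wr G n)) (i k l : Fin n)
    (hkl : k ≠ l) (g₁ g₂ : G) (h1 : (a (sgl i g₁)).left k ≠ 1) : (a (sgl i g₂)).left l = 1 := by
  classical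
  by_contra h2
  obtain ⟨u, hu⟩ := comp_mem hn hZ a i k g₁
  obtain ⟨v, hv⟩ := comp_mem hn hZ a i l g₂
  have hfix : ∀ σ : Equiv.Perm (Fin n), σ i = i →
      (a (SemidirectProduct.inr σ)).right k = k ∧ (a (SemidirectProduct.inr σ)).right l = l := by
    intro σ hσ
    constructor
    · refine fix_of_comm _ k _ h1 ?_
      rw [← hu, ← map_mul, ← map_mul, inr_comm i u σ hσ]
    · refine fix_of_comm _ l _ h2 ?_
      rw [← hv, ← map_mul, ← map_mul, inr_comm i v σ hσ]
  let S : Fin n → Finset (Equiv.Perm (Fin n)) := fun j => Finset.univ.filter fun σ => σ j = j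
  have hcard : (S i).card = (S k).card := by
    refine Finset.card_bij (fun σ _ => Equiv.swap i k * σ * Equiv.swap i k) ?_ ?_ ?_
    · intro σ hσ
      simp only [S, Finset.mem_filter, Finset.mem_univ, true_and] at hσ ⊢
      simp [hσ]
    · intro σ _ τ _ h
      simpa using h
    · intro σ hσ
      simp only [S, Finset.mem_filter, Finset.mem_univ, true_and] at hσ
      refine ⟨Equiv.swap i k * σ * Equiv.swap i k, ?_, ?_⟩
      · simp [S, hσ]
      · simp only [← mul_assoc, Equiv.swap_mul_self, one_mul]
        rw [mul_assoc, Equiv.swap_mul_self, mul_one]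
  have hle : (S i).card ≤ ((S k) ∩ (S l)).card := by
    refine Finset.card_le_card_of_injOn (fun σ => (a (SemidirectProduct.inr σ)).right) ?_ ?_
    · intro σ hσ
      simp only [S, Finset.coe_filter, Finset.mem_univ, true_and, Set.mem_setOf_eq] at hσ
      simp only [S, Finset.coe_inter, Finset.coe_filter, Finset.mem_univ, true_and,
        Set.mem_inter_iff, Set.mem_setOf_eq]
      exact hfix σ hσ
    · intro σ _ τ _ h
      have h3 : (a (SemidirectProduct.inr (σ * τ⁻¹))).right = 1 := by
        rw [map_mul, map_mul, map_inv, map_inv, wr_mul_right, SemidirectProduct.inv_right]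
        have h4 : (a (SemidirectProduct.inr σ)).right = (a (SemidirectProduct.inr τ)).right := h
        rw [h4, mul_inv_cancel]
      rw [base_iff hn] at h3
      have h5 : σ * τ⁻¹ = 1 := h3
      exact mul_inv_eq_one.1 h5
  have hlt : ((S k) ∩ (S l)).card < (S k).card := by
    refine Finset.card_lt_card ?_
    rw [Finset.ssubset_iff_of_subset Finset.inter_subset_left]
    obtain ⟨m, hm⟩ : ∃ m : Fin n, m ∉ ({k, l} : Finset (Fin n)) := by
      by_contra hcon
      push_neg at hcon
      have h6 : (Finset.univ : Finset (Fin n)) ⊆ {k, l} := fun m _ => hcon m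
      have h7 := Finset.card_le_card h6
      rw [Finset.card_univ, Fintype.card_fin] at h7
      have h8 := Finset.card_le_two (a := k) (b := l)
      omega
    simp only [Finset.mem_insert, Finset.mem_singleton, not_or] at hm
    refine ⟨Equiv.swap l m, ?_, ?_⟩
    · simp only [S, Finset.mem_filter, Finset.mem_univ, true_and]
      exact Equiv.swap_apply_of_ne_of_ne hkl (Ne.symm hm.1)
    · simp only [S, Finset.mem_inter, Finset.mem_filter, Finset.mem_univ, true_and, not_and]
      intro _
      rw [Equiv.swap_apply_left]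
      exact hm.2
  omega

end gt

end Pool.Agent.TH59.WX
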