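import Mathlib
import Pool.Agent.TH59.WX.GT1

/-!
# Automorphisms of direct products of indecomposable groups; `G ≀ S_n` is indecomposable
-/

set_option autoImplicit false

namespace Pool.Agent.TH59.WX

open Pool.Agent.H391R2 Pool.Agent.H391R2.T4

set_option linter.unusedSectionVars false

/-- The group is not a product of two commuting nontrivial subgroups. -/
def Indec (T : Type) [Group T] : Prop :=
  ∀ A B : Subgroup T, (∀ a ∈ A, ∀ b ∈ B, a * b = b * a) → (∀ t, ∃ a ∈ A, ∃ b ∈ B, a * b = t) →
    A = ⊥ ∨ B = ⊥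

section wr

variable {G : Type} [Group G] {n : ℕ}

theorem normal_sgl [Nontrivial G] (hZ : ∀ z : G, (∀ g : G, z * g = g * z) → z = 1)
    (M : Subgroup (Wr G n)) (hM : M.Normal) (hne : M ≠ ⊥) (i : Fin n) :
    ∃ c : G, c ≠ 1 ∧ sgl i c ∈ M := by
  classical
  -- an element of the base group
  obtain ⟨m, hm, k, hmr, hmk⟩ : ∃ m ∈ M, ∃ k, m.right = 1 ∧ m.left k ≠ 1 := by
    obtain ⟨m, hm, hm1⟩ := M.bot_or_exists_ne_one.resolve_left hne
    by_cases hr : m.right = 1
    · by_contra hcon
      push Not at hcon
      exact hm1 (wr_ext (fun k => hcon m hm k hr) hr)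
    · obtain ⟨k, hk⟩ : ∃ k, m.right k ≠ k := by
        by_contra hcon
        push Not at hcon
        exact hr (Equiv.ext hcon)
      obtain ⟨g, hg⟩ := exists_ne (1 : G)
      refine ⟨m * (sgl k g * m⁻¹ * (sgl k g)⁻¹), mul_mem hm (hM.conj_mem _ (inv_mem hm) _), k,
        ?_, ?_⟩
      · simp only [wr_mul_right, SemidirectProduct.inv_right, sgl_right]
        group
      · have h1 : (m * (sgl k g * m⁻¹ * (sgl k g)⁻¹)).left k =
            (m * sgl k g * m⁻¹).left k * g⁻¹ := by
          have h2 : m * (sgl k g * m⁻¹ * (sgl k g)⁻¹) = (m * sgl k g * m⁻¹) * sgl k g⁻¹ := by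
            have h3 : (sgl k g : Wr G n)⁻¹ = sgl k g⁻¹ := by
              rw [inv_eq_iff_mul_eq_one, ← sgl_mul, mul_inv_cancel, sgl_one]
            rw [h3]
            group
          rw [h2, base_mul_left, sgl_left_self]
          simp only [wr_mul_right, SemidirectProduct.inv_right, sgl_right]
          group
        rw [h1]
        have h4 : (m * sgl k g * m⁻¹).left k = 1 := by
          rw [wr_mul_left, wr_mul_left, wr_inv_left]
          have h5 : m.right⁻¹ k ≠ k := by
            intro h
            apply hk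
            rw [Equiv.Perm.inv_eq_iff_eq] at h
            exact h.symm
          rw [sgl_left_ne h5, mul_one]
          have h6 : m.right ((m * sgl k g).right⁻¹ k) = k := by
            rw [wr_mul_right, sgl_right, mul_one]
            simp
          rw [h6, mul_inv_cancel]
        rw [h4, one_mul]
        exact inv_ne_one.2 hg
  -- a commutator
  obtain ⟨c, hc1, hc⟩ : ∃ c : G, c ≠ 1 ∧ sgl k c ∈ M := by
    obtain ⟨g, hg⟩ : ∃ g, m.left k * g ≠ g * m.left k := by
      by_contra hcon
      push Not at hcon
      exact hmk (hZ _ hcon)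
    refine ⟨m.left k * g * (m.left k)⁻¹ * g⁻¹, ?_, ?_⟩
    · intro h
      apply hg
      rw [mul_inv_eq_one, mul_inv_eq_iff_eq_mul] at h
      exact h
    · have h1 : m * (sgl k g * m⁻¹ * (sgl k g)⁻¹) ∈ M :=
        mul_mem hm (hM.conj_mem _ (inv_mem hm) _)
      have h2 : m * (sgl k g * m⁻¹ * (sgl k g)⁻¹) =
          sgl k (m.left k * g * (m.left k)⁻¹ * g⁻¹) := by
        have h3 : (sgl k g : Wr G n)⁻¹ = sgl k g⁻¹ := by
          rw [inv_eq_iff_mul_eq_one, ← sgl_mul, mul_inv_cancel, sgl_one]
        have hmi : (m⁻¹).right = 1 := by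
          rw [SemidirectProduct.inv_right, hmr, inv_one]
        rw [h3]
        refine wr_ext (fun j => ?_) ?_
        · rw [base_mul_left _ _ hmr, base_mul_left _ _ (by
            rw [wr_mul_right, sgl_right, hmi, one_mul]), base_mul_left _ _ (sgl_right k g),
            wr_inv_left, hmr]
          by_cases hj : j = k
          · subst hj
            rw [sgl_left_self, sgl_left_self, sgl_left_self]
            simp only [Equiv.Perm.coe_one, id_eq]
            group
          · rw [sgl_left_ne hj, sgl_left_ne hj, sgl_left_ne hj]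
            simp
        · simp only [wr_mul_right, hmi, sgl_right, hmr, mul_one]
      rwa [h2] at h1
  -- move it
  refine ⟨c, hc1, ?_⟩
  have h1 := hM.conj_mem _ hc (SemidirectProduct.inr (Equiv.swap k i))
  have h2 : (SemidirectProduct.inr (Equiv.swap k i) : Wr G n) * sgl k c *
      (SemidirectProduct.inr (Equiv.swap k i))⁻¹ = sgl i c := by
    rw [mul_inv_eq_iff_eq_mul]
    refine wr_ext (fun j => ?_) ?_
    · rw [wr_mul_left, wr_mul_left, SemidirectProduct.left_inr, SemidirectProduct.right_inr,
        sgl_left, sgl_left, Equiv.swap_inv]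
      simp only [Pi.one_apply, one_mul, mul_one]
      have h3 : Equiv.swap k i j = k ↔ j = i := by
        constructor
        · intro h
          have h4 := congrArg (Equiv.swap k i) h
          rw [Equiv.swap_apply_self, Equiv.swap_apply_left] at h4
          exact h4
        · rintro rfl
          exact Equiv.swap_apply_right _ _
      simp only [h3]
    · rw [wr_mul_right, wr_mul_right, sgl_right, sgl_right, mul_one, one_mul]
  rwa [h2] at h1

theorem wr_indec [Nontrivial G] (hZ : ∀ z : G, (∀ g : G, z * g = g * z) → z = 1) (hn : 2 ≤ n) :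
    Indec (Wr G n) := by
  classical
  intro A B hcomm hgen
  have hAn : A.Normal := ⟨fun a ha t => by
    obtain ⟨a', ha', b', hb', rfl⟩ := hgen t
    have h1 : a' * b' * a * (a' * b')⁻¹ = a' * a * a'⁻¹ := by
      rw [mul_assoc a' b' a, ← hcomm a ha b' hb']
      group
    rw [h1]
    exact mul_mem (mul_mem ha' ha) (inv_mem ha')⟩
  have hBn : B.Normal := ⟨fun b hb t => by
    obtain ⟨a', ha', b', hb', rfl⟩ := hgen t
    have h1 : a' * b' * b * (a' * b')⁻¹ = b' * b * b'⁻¹ := by
      have h2 := hcomm a' ha' (b' * b * b'⁻¹) (mul_mem (mul_mem hb' hb) (inv_mem hb'))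
      calc a' * b' * b * (a' * b')⁻¹ = a' * (b' * b * b'⁻¹) * a'⁻¹ := by group
        _ = b' * b * b'⁻¹ := by rw [h2]; group
    rw [h1]
    exact mul_mem (mul_mem hb' hb) (inv_mem hb')⟩
  by_contra hcon
  push Not at hcon
  let i : Fin n := ⟨0, by omega⟩
  let j : Fin n := ⟨1, by omega⟩
  have hij : i ≠ j := by
    intro h
    have := congrArg Fin.val h
    simp [i, j] at this
  obtain ⟨a, ha, b, hb, hab⟩ := hgen (SemidirectProduct.inr (Equiv.swap i j))
  have hb1 : b.right = 1 := by
    apply Equiv.ext
    intro k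
    obtain ⟨c, hc1, hc⟩ := normal_sgl hZ A hAn hcon.1 k
    exact fix_of_comm b k c hc1 (hcomm _ hc b hb).symm
  have ha1 : a.right = 1 := by
    apply Equiv.ext
    intro k
    obtain ⟨c, hc1, hc⟩ := normal_sgl hZ B hBn hcon.2 k
    exact fix_of_comm a k c hc1 (hcomm a ha _ hc)
  have h1 := congrArg (fun y : Wr G n => y.right i) hab
  simp only [wr_mul_right, ha1, hb1, SemidirectProduct.right_inr, mul_one,
    Equiv.swap_apply_left] at h1
  exact hij h1

end wr

end Pool.Agent.TH59.WX
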