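import Mathlib
import Pool.Agent.TH59.WX.UA
import Pool.Agent.H391R2.T4.Red
import Pool.Agent.W200.IK.DD

/-!
Regular solutions over `K(t)` for every field `K`, with a bound depending only on the order of the
group and of the Galois group of the constant extension.
-/

set_option autoImplicit false

namespace Pool.Agent.TH59.WX

open Polynomial
open Pool.Agent.H391R2 (Wr wrMap wrMap_surjective)
open Pool.Agent.H391R2.T4 (EG RegSol phiC)

set_option linter.unusedSectionVars false

/-- A Galois extension contains, after a Galois extension of bounded degree, the roots of unity. -/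
theorem exists_root_ext_bd (K L : Type) [Field K] [CharZero K] [Field L] [Algebra K L]
    [FiniteDimensional K L] [IsGalois K L] (e : ℕ) (he : e ≠ 0) :
    ∃ (L' : Type) (_ : Field L') (_ : Algebra K L') (_ : FiniteDimensional K L')
      (_ : IsGalois K L') (_ : Algebra L L') (_ : IsScalarTower K L L') (ζ : L'),
      IsPrimitiveRoot ζ e ∧ Nat.card (L' ≃ₐ[K] L') ≤ e * Nat.card (L ≃ₐ[K] L) := by
  classical
  have hcL : CharZero L := charZero_of_injective_algebraMap (algebraMap K L).injective
  have : NeZero e := ⟨he⟩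
  have : NeZero (e : L) := ⟨Nat.cast_ne_zero.2 he⟩
  have : NeZero (e : K) := ⟨Nat.cast_ne_zero.2 he⟩
  let L' := CyclotomicField e L
  have hcyc : IsCyclotomicExtension {e} L L' := CyclotomicField.isCyclotomicExtension e L
  have hfd1 : FiniteDimensional L L' := IsCyclotomicExtension.finite_of_singleton e L L'
  have hT : IsScalarTower K L L' := inferInstance
  have hfd : FiniteDimensional K L' := FiniteDimensional.trans K L L'
  have hζ := IsCyclotomicExtension.zeta_spec e L L'
  obtain ⟨f, hfs, hf⟩ := IsGalois.is_separable_splitting_field K L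
  have hs1 : IsSplittingField L L' ((cyclotomic e K).map (algebraMap K L)) := by
    rw [map_cyclotomic]
    exact IsCyclotomicExtension.splitting_field_cyclotomic e L L'
  have hsp : IsSplittingField K L' (f * cyclotomic e K) :=
    IsSplittingField.mul (F := K) (K := L) L' f (cyclotomic e K) hfs.ne_zero (cyclotomic_ne_zero e K)
  have hnorm : Normal K L' := Normal.of_isSplittingField (f * cyclotomic e K)
  have hgal : IsGalois K L' := ⟨⟩
  refine ⟨L', inferInstance, inferInstance, hfd, hgal, inferInstance, hT, _, hζ, ?_⟩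
  rw [IsGalois.card_aut_eq_finrank, IsGalois.card_aut_eq_finrank, ← Module.finrank_mul_finrank K L L',
    mul_comm]
  refine Nat.mul_le_mul_right _ ?_
  rw [(hζ.powerBasis L).finrank, IsPrimitiveRoot.powerBasis_dim]
  have h1 : minpoly L (IsCyclotomicExtension.zeta e L L') ∣ X ^ e - 1 := by
    refine minpoly.dvd L _ ?_
    rw [map_sub, map_pow, aeval_X, map_one, hζ.pow_eq_one, sub_self]
  have h2 := natDegree_le_of_dvd h1 (X_pow_sub_C_ne_zero (Nat.pos_of_ne_zero he) 1)
  have h3 : (X ^ e - 1 : L[X]).natDegree = e := natDegree_X_pow_sub_C (r := (1 : L))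
  omega

theorem nb_mono (g g' c c' : ℕ) (hg : g ≤ g') (hc : c ≤ c') : nb g c ≤ nb g' c' := by
  unfold nb
  have h1 := Nat.factorial_le hg
  gcongr

/-- The bound. -/
def ub (g c : ℕ) : ℕ := max (nb (3 * g) (3 * g * c)) (Pool.Agent.W200.IK.bd g c)

theorem ub_mono (g c c' : ℕ) (hc : c ≤ c') : ub g c ≤ ub g c' := by
  unfold ub
  refine max_le_max (nb_mono _ _ _ _ le_rfl (Nat.mul_le_mul_left _ hc)) ?_
  unfold Pool.Agent.W200.IK.bd
  gcongr

/-- Characteristic zero. -/
theorem reg_zero_bd (K L : Type) [Field K] [CharZero K] [Field L] [Algebra K L]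
    [FiniteDimensional K L] [IsGalois K L] (G : Type) [Group G] [Finite G]
    (φ : (L ≃ₐ[K] L) →* MulAut G) :
    ∀ n ≥ nb (3 * Nat.card G) (3 * Nat.card G * Nat.card (L ≃ₐ[K] L)), 3 ≤ n ∧
      RegSol K L (EG φ n) SemidirectProduct.rightHom := by
  classical
  have := Fintype.ofFinite G
  let C := Multiplicative (ZMod 3)
  have hcard0 : Fintype.card (G × C) = 3 * Nat.card G := by
    rw [Fintype.card_prod, Fintype.card_multiplicative, ZMod.card, Nat.card_eq_fintype_card,
      mul_comm]
  have hG0 : 0 < Nat.card G := Nat.card_pos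
  have hcard : 3 ≤ Fintype.card (G × C) := by omega
  have hexp : Monoid.exponent (G × C) ≤ 3 * Nat.card G := by
    rw [← hcard0, ← Nat.card_eq_fintype_card]
    exact Nat.le_of_dvd Nat.card_pos Group.exponent_dvd_nat_card
  obtain ⟨L', i1, i2, i3, i4, i5, i6, ζ, hζ, hL'⟩ := exists_root_ext_bd K L
    (Monoid.exponent (G × C)) Monoid.exponent_ne_zero_of_finite
  let res : (L' ≃ₐ[K] L') →* (L ≃ₐ[K] L) := AlgEquiv.restrictNormalHom L
  let φ' : (L' ≃ₐ[K] L') →* MulAut (G × C) := (phiC φ C).comp res
  have hn₀ := wreath_many_bd K L' (G × C) hcard φ' (Monoid.exponent (G × C))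
    (Nat.pos_of_ne_zero Monoid.exponent_ne_zero_of_finite)
    (fun g => Monoid.pow_exponent_eq_one g) ζ hζ
  intro n hn
  obtain ⟨hn3, ι, hι, E, a1, a2, a3, a4, a5, F, b1, b2, b3, b4, b5, b6, b7, b8, γ, hγ1, hγ2⟩ :=
    hn₀ n (le_trans (nb_mono _ _ _ _ hcard0.le (hL'.trans (Nat.mul_le_mul_right _ hexp))) hn)
  refine ⟨hn3, ?_⟩
  have hreg : RegSol K L' (EG φ' n) SemidirectProduct.rightHom :=
    Pool.Agent.H81R2.BT.taskA K L' (EG φ' n) SemidirectProduct.rightHom ι E F γ hγ1 hγ2
  let f : EG φ' n →* EG φ n := SemidirectProduct.map (wrMap (MonoidHom.fst G C) n) res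
    (fun ρ => by
      apply MonoidHom.ext
      intro x
      apply SemidirectProduct.ext
      · funext i
        rfl
      · rfl)
  refine hreg.quot SemidirectProduct.rightHom SemidirectProduct.rightHom f ?_ ?_ ?_
  · intro z
    obtain ⟨x, hx⟩ := wrMap_surjective (MonoidHom.fst G C) n Prod.fst_surjective z.left
    obtain ⟨ρ, hρ⟩ := AlgEquiv.restrictNormalHom_surjective (F := K) (K₁ := L) L' z.right
    refine ⟨⟨x, ρ⟩, ?_⟩
    apply SemidirectProduct.ext
    · exact hx
    · exact hρ
  · intro g'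
    rfl
  · intro ρ hρ
    refine ⟨⟨1, ρ⟩, ?_, rfl⟩
    apply SemidirectProduct.ext
    · exact map_one (wrMap (MonoidHom.fst G C) n)
    · exact hρ

/-- **Every field.** -/
theorem reg_all_bd (K L : Type) [Field K] [Field L] [Algebra K L]
    [FiniteDimensional K L] [IsGalois K L] (G : Type) [Group G] [Finite G]
    (φ : (L ≃ₐ[K] L) →* MulAut G) :
    ∀ n ≥ ub (Nat.card G) (Nat.card (L ≃ₐ[K] L)), 3 ≤ n ∧
      RegSol K L (EG φ n) SemidirectProduct.rightHom := by
  intro n hn
  obtain ⟨p, hp⟩ := CharP.exists K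
  rcases CharP.char_is_prime_or_zero K p with h | h
  · have : Fact p.Prime := ⟨h⟩
    have hn' : n ≥ Pool.Agent.W200.IK.bd (Nat.card G) (Nat.card (L ≃ₐ[K] L)) :=
      le_trans (le_max_right _ _) hn
    rcases finite_or_infinite K with hf | hi
    · exact Pool.Agent.W200.IK.reg_wreath_fin_bd K L G φ n hn'
    · exact Pool.Agent.W200.IK.reg_wreath_inf_bd p K L G φ n hn'
  · subst h
    have : CharZero K := CharP.charP_to_charZero K
    exact reg_zero_bd K L G φ n (le_trans (le_max_left _ _) hn)

end Pool.Agent.TH59.WX
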