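import Mathlib
import Pool.Agent.TH59.WX.UC

/-!
Lifting regular solutions along an extension of the constants: fibre products.
-/

set_option autoImplicit false

namespace Pool.Agent.TH59.WX

open Polynomial
open Pool.Agent.H391R2.T4 (RegSol)

set_option linter.unusedSectionVars false

/-- Two injections with the same range. -/
theorem equiv_of_range {A B P : Type} [Group A] [Group B] [Group P] (f : A →* P) (g : B →* P)
    (hf : Function.Injective f) (hg : Function.Injective g) (h : f.range = g.range) :
    ∃ γ : A ≃* B, ∀ a, g (γ a) = f a := by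
  let γ : A ≃* B := ((MonoidHom.ofInjective hf).trans (MulEquiv.subgroupCongr h)).trans
    (MonoidHom.ofInjective hg).symm
  refine ⟨γ, fun a => ?_⟩
  have h1 : (MonoidHom.ofInjective hg) (γ a) = MulEquiv.subgroupCongr h
      (MonoidHom.ofInjective hf a) := by
    change (MonoidHom.ofInjective hg) ((MonoidHom.ofInjective hg).symm _) = _
    rw [MulEquiv.apply_symm_apply]
    rfl
  exact congrArg Subtype.val h1

section lift

variable {K L₀ L E₀ E : Type} [Field K] [Field L₀] [Field L] [Algebra K L₀] [Algebra K L]
  [Algebra L₀ L] [IsScalarTower K L₀ L] [FiniteDimensional K L₀] [IsGalois K L₀]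
  [FiniteDimensional K L] [IsGalois K L] [Group E₀] [Group E]

/-- **Lifting regular solutions.** -/
theorem reg_lift (α₀ : E₀ →* (L₀ ≃ₐ[K] L₀)) (α : E →* (L ≃ₐ[K] L)) (p : E →* E₀)
    (hc : ∀ e, α₀ (p e) = (α e).restrictNormal L₀)
    (hinj : ∀ e, p e = 1 → α e = 1 → e = 1)
    (hsur : ∀ (e₀ : E₀) (σ : L ≃ₐ[K] L), α₀ e₀ = σ.restrictNormal L₀ → ∃ e, p e = e₀ ∧ α e = σ)
    (h : RegSol K L₀ E₀ α₀) : RegSol K L E α := by
  classical
  obtain ⟨F₀, i1, i2, i3, i4, i5, i6, i7, i8, γ₀, hγ1, hγ2⟩ := h
  have hfd0 : FiniteDimensional L₀ L := Module.Finite.of_restrictScalars_finite K L₀ L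
  have hgal0 : IsGalois L₀ L := IsGalois.tower_top_of_isGalois K L₀ L
  obtain ⟨q, hqs, hq⟩ := IsGalois.is_separable_splitting_field K L
  obtain ⟨r, hrs, hr⟩ := IsGalois.is_separable_splitting_field (RatFunc K) F₀
  let qF : F₀[X] := q.map (algebraMap K F₀)
  have hqF : qF = (q.map (algebraMap K (RatFunc K))).map (algebraMap (RatFunc K) F₀) := by
    rw [Polynomial.map_map, ← IsScalarTower.algebraMap_eq]
  let F := qF.SplittingField
  have hqFs : qF.Separable := hqs.map
  have hgalF : IsGalois F₀ F := IsGalois.of_separable_splitting_field (p := qF) hqFs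
  have hfdF : FiniteDimensional F₀ F := inferInstance
  have tt1 : IsScalarTower (RatFunc K) F₀ F := inferInstance
  have tt2 : IsScalarTower K F₀ F := inferInstance
  have tt3 : IsScalarTower L₀ F₀ F := inferInstance
  have hspF : IsSplittingField F₀ F qF := inferInstance
  have tt4 : IsScalarTower K (RatFunc K) F := IsScalarTower.of_algebraMap_eq fun x => by
    rw [IsScalarTower.algebraMap_apply K F₀ F, IsScalarTower.algebraMap_apply K (RatFunc K) F₀,
      ← IsScalarTower.algebraMap_apply (RatFunc K) F₀ F]
  have hfdkF : FiniteDimensional (RatFunc K) F := FiniteDimensional.trans (RatFunc K) F₀ F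
  have hsp1 : IsSplittingField F₀ F ((q.map (algebraMap K (RatFunc K))).map
      (algebraMap (RatFunc K) F₀)) := by
    rw [← hqF]
    exact hspF
  have hqk0 : q.map (algebraMap K (RatFunc K)) ≠ 0 := (hqs.map).ne_zero
  have hspk : IsSplittingField (RatFunc K) F (r * q.map (algebraMap K (RatFunc K))) :=
    IsSplittingField.mul (F := RatFunc K) (K := F₀) F r _ hrs.ne_zero hqk0
  have hnormk : Normal (RatFunc K) F := Normal.of_isSplittingField
    (r * q.map (algebraMap K (RatFunc K)))
  have hsepk : Algebra.IsSeparable (RatFunc K) F := Algebra.IsSeparable.trans (RatFunc K) F₀ F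
  have hgalk : IsGalois (RatFunc K) F := ⟨⟩
  -- the embedding of `L`
  have hsplit : ((q.map (algebraMap K L₀)).map (algebraMap L₀ F)).Splits := by
    rw [Polynomial.map_map]
    have h1 : (algebraMap L₀ F).comp (algebraMap K L₀) =
        (algebraMap F₀ F).comp (algebraMap K F₀) := by
      apply RingHom.ext
      intro x
      change algebraMap L₀ F (algebraMap K L₀ x) = algebraMap F₀ F (algebraMap K F₀ x)
      rw [IsScalarTower.algebraMap_apply L₀ F₀ F, ← IsScalarTower.algebraMap_apply K L₀ F₀]
    rw [h1, ← Polynomial.map_map]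
    exact SplittingField.splits qF
  let j : L →ₐ[L₀] F := IsSplittingField.lift L (q.map (algebraMap K L₀)) hsplit
  let aLF : Algebra L F := j.toRingHom.toAlgebra
  have tt5 : IsScalarTower L₀ L F := IsScalarTower.of_algebraMap_eq fun x => (j.commutes x).symm
  have tt6 : IsScalarTower K L F := IsScalarTower.of_algebraMap_eq fun x => by
    rw [IsScalarTower.algebraMap_apply K L₀ L, ← IsScalarTower.algebraMap_apply L₀ L F,
      IsScalarTower.algebraMap_apply L₀ F₀ F, ← IsScalarTower.algebraMap_apply K L₀ F₀,
      ← IsScalarTower.algebraMap_apply K F₀ F]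
  -- generation
  have hgenF : ∀ σ : F ≃ₐ[F₀] F, (∀ x : L, σ (algebraMap L F x) = algebraMap L F x) → σ = 1 := by
    intro σ hσ
    have h1 : ∀ z ∈ qF.rootSet F, σ z = z := by
      intro z hz
      have hsplitL : (q.map (algebraMap K L)).Splits := hq.splits'
      have h2 : aeval z q = 0 := by
        have h3 := (mem_rootSet.1 hz).2
        rw [aeval_def, eval₂_map] at h3
        rw [aeval_def, ← h3]
        congr 1
      have h4 : z ∈ ((q.map (algebraMap K L)).map (algebraMap L F)).roots := by
        rw [mem_roots (by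
          rw [Polynomial.map_map]
          exact (Polynomial.map_ne_zero_iff (RingHom.injective _)).2 hqs.ne_zero), IsRoot.def,
          Polynomial.map_map, ← IsScalarTower.algebraMap_eq K L F, eval_map_algebraMap, h2]
      rw [hsplitL.roots_map] at h4
      obtain ⟨x, -, hx⟩ := Multiset.mem_map.1 h4
      rw [← hx]
      exact hσ x
    apply AlgEquiv.ext
    intro z
    have hz : z ∈ Algebra.adjoin F₀ (qF.rootSet F) := by
      rw [hspF.adjoin_rootSet']
      trivial
    induction hz using Algebra.adjoin_induction with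
    | mem x hx => exact h1 x hx
    | algebraMap c => exact σ.commutes c
    | add x y _ _ hx hy =>
      rw [map_add, hx, hy]
      rfl
    | mul x y _ _ hx hy =>
      rw [map_mul, hx, hy]
      rfl
  -- the two restrictions
  let resF : (F ≃ₐ[RatFunc K] F) →* (F₀ ≃ₐ[RatFunc K] F₀) := AlgEquiv.restrictNormalHom F₀
  have hresF : ∀ (σ : F ≃ₐ[RatFunc K] F) (x : F₀),
      algebraMap F₀ F (resF σ x) = σ (algebraMap F₀ F x) :=
    fun σ x => AlgEquiv.restrictNormal_commutes σ F₀ x
  have hressurj : Function.Surjective resF := AlgEquiv.restrictNormalHom_surjective F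
  let resL : (F ≃ₐ[RatFunc K] F) →* (L ≃ₐ[K] L) :=
    { toFun := fun σ => (σ.restrictScalars K).restrictNormal L
      map_one' := by
        apply AlgEquiv.ext
        intro x
        apply (algebraMap L F).injective
        rw [AlgEquiv.restrictNormal_commutes]
        rfl
      map_mul' := fun σ τ => by
        apply AlgEquiv.ext
        intro x
        apply (algebraMap L F).injective
        rw [AlgEquiv.restrictNormal_commutes]
        change σ (τ (algebraMap L F x)) = algebraMap L F
          ((σ.restrictScalars K).restrictNormal L ((τ.restrictScalars K).restrictNormal L x))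
        rw [AlgEquiv.restrictNormal_commutes, AlgEquiv.restrictScalars_apply,
          AlgEquiv.restrictNormal_commutes, AlgEquiv.restrictScalars_apply] }
  have hresL : ∀ (σ : F ≃ₐ[RatFunc K] F) (x : L),
      algebraMap L F (resL σ x) = σ (algebraMap L F x) :=
    fun σ x => AlgEquiv.restrictNormal_commutes (σ.restrictScalars K) L x
  let f₁ : E →* E₀ × (L ≃ₐ[K] L) := p.prod α
  let f₂ : (F ≃ₐ[RatFunc K] F) →* E₀ × (L ≃ₐ[K] L) :=
    (γ₀.toMonoidHom.comp resF).prod resL
  have hf₁ : Function.Injective f₁ := by
    rw [injective_iff_map_eq_one]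
    intro e he
    exact hinj e (congrArg Prod.fst he) (congrArg Prod.snd he)
  have hf₂ : Function.Injective f₂ := by
    rw [injective_iff_map_eq_one]
    intro σ hσ
    have h1 : γ₀ (resF σ) = 1 := congrArg Prod.fst hσ
    have h2 : resL σ = 1 := congrArg Prod.snd hσ
    rw [map_eq_one_iff γ₀ γ₀.injective] at h1
    -- `σ` fixes `F₀`
    let τ : F ≃ₐ[F₀] F := { σ with
      commutes' := fun x => by
        change σ (algebraMap F₀ F x) = algebraMap F₀ F x
        rw [← hresF, h1]
        rfl }
    have hτ : τ = 1 := by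
      apply hgenF
      intro x
      change σ (algebraMap L F x) = algebraMap L F x
      rw [← hresL, h2]
      rfl
    apply AlgEquiv.ext
    intro z
    exact congrArg (fun f : F ≃ₐ[F₀] F => f z) hτ
  have hrange : f₂.range = f₁.range := by
    apply le_antisymm
    · rintro _ ⟨σ, rfl⟩
      obtain ⟨e, he1, he2⟩ := hsur (γ₀ (resF σ)) (resL σ) (by
        apply AlgEquiv.ext
        intro x
        apply (algebraMap L₀ F).injective
        rw [IsScalarTower.algebraMap_apply L₀ F₀ F, ← hγ1, hresF]
        rw [IsScalarTower.algebraMap_apply L₀ L F, AlgEquiv.restrictNormal_commutes, hresL,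
          ← IsScalarTower.algebraMap_apply L₀ L F, ← IsScalarTower.algebraMap_apply L₀ F₀ F])
      exact ⟨e, Prod.ext he1 he2⟩
    · rintro _ ⟨e, rfl⟩
      obtain ⟨τ, hτ⟩ := hressurj (γ₀.symm (p e))
      -- correct `τ` on `L`
      have hag : ∀ x : L₀, (resL τ) (algebraMap L₀ L x) = α e (algebraMap L₀ L x) := by
        intro x
        apply (algebraMap L F).injective
        rw [hresL, ← IsScalarTower.algebraMap_apply L₀ L F, IsScalarTower.algebraMap_apply L₀ F₀ F,
          ← hresF, hτ, hγ1, MulEquiv.apply_symm_apply, hc,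
          ← IsScalarTower.algebraMap_apply L₀ F₀ F, IsScalarTower.algebraMap_apply L₀ L F,
          AlgEquiv.restrictNormal_commutes]
      let ρ : L ≃ₐ[L₀] L := { (resL τ)⁻¹ * α e with
        commutes' := fun x => by
          change (resL τ).symm (α e (algebraMap L₀ L x)) = algebraMap L₀ L x
          rw [← hag, AlgEquiv.symm_apply_apply] }
      obtain ⟨ρ', hρ'⟩ := rr_surj (L₀ := L₀) (L := L) (F₀ := F₀) (F := F) hγ2 ρ
      refine ⟨τ * ρ'.restrictScalars (RatFunc K), Prod.ext ?_ ?_⟩
      · change γ₀ (resF (τ * ρ'.restrictScalars (RatFunc K))) = p e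
        have h1 : resF (ρ'.restrictScalars (RatFunc K)) = 1 := by
          apply AlgEquiv.ext
          intro x
          apply (algebraMap F₀ F).injective
          rw [hresF]
          exact ρ'.commutes x
        rw [map_mul, h1, mul_one, hτ, MulEquiv.apply_symm_apply]
      · change resL (τ * ρ'.restrictScalars (RatFunc K)) = α e
        rw [map_mul]
        have h1 : resL (ρ'.restrictScalars (RatFunc K)) = (resL τ)⁻¹ * α e := by
          apply AlgEquiv.ext
          intro x
          apply (algebraMap L F).injective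
          rw [hresL]
          change ρ' (algebraMap L F x) = algebraMap L F (ρ x)
          rw [← hρ', rr_spec]
        rw [h1, mul_inv_cancel_left]
  obtain ⟨γ, hγ⟩ := equiv_of_range f₂ f₁ hf₂ hf₁ hrange
  refine ⟨F, inferInstance, inferInstance, aLF, inferInstance, tt4, tt6, hfdkF, hgalk, γ, ?_, ?_⟩
  · intro σ x
    have h1 : α (γ σ) = resL σ := congrArg Prod.snd (hγ σ)
    rw [h1, hresL]
  · exact fun y hy => alg_closed_lift (L₀ := L₀) (L := L) (F₀ := F₀) (F := F) hγ2 hgenF y hy

end lift

end Pool.Agent.TH59.WX
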