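import Mathlib
import Pool.Agent.TH59.WX.UB
import Pool.Agent.TH59.WX.UD
import Pool.Agent.TH59.WX.GT2

/-!
Regular solutions of all embedding problems with kernel isomorphic to a wreath product `G ≀ S_n`.
-/

set_option autoImplicit false

namespace Pool.Agent.TH59.WX

open Polynomial
open Pool.Agent.H391R2 (Wr)
open Pool.Agent.H391R2.T4 (EG RegSol exists_equiv_of_ker)

set_option linter.unusedSectionVars false

/-- The uniform bound: it depends only on the order of `G`. -/
def wb (g : ℕ) : ℕ := max (2 * (g + 2)) (ub g (g ^ g))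

theorem card_mulAut_le (G : Type) [Group G] [Finite G] :
    Nat.card (MulAut G) ≤ Nat.card G ^ Nat.card G := by
  classical
  have h1 : Nat.card (MulAut G) ≤ Nat.card (G → G) :=
    Nat.card_le_card_of_injective (fun f : MulAut G => (f : G → G)) DFunLike.coe_injective
  rwa [Nat.card_fun] at h1

/-- Transport of regular solutions along an isomorphism of groups. -/
theorem reg_transport {K L E X : Type} [Field K] [Field L] [Algebra K L] [Group E] [Group X]
    (α : E →* (L ≃ₐ[K] L)) (β : X →* (L ≃ₐ[K] L)) (Θ : X ≃* E) (hΘ : ∀ x, α (Θ x) = β x)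
    (h : RegSol K L E α) : RegSol K L X β := by
  obtain ⟨F, i1, i2, i3, i4, i5, i6, i7, i8, γ, h1, h2⟩ := h
  refine ⟨F, i1, i2, i3, i4, i5, i6, i7, i8, γ.trans Θ.symm, fun σ x => ?_, h2⟩
  rw [h1]
  congr 1
  rw [← hΘ, MulEquiv.trans_apply, MulEquiv.apply_symm_apply]

section reg

variable (K L : Type) [Field K] [Field L] [Algebra K L] [FiniteDimensional K L] [IsGalois K L]

/-- The action may be twisted by the constants: a bound that depends only on `|G|`. -/
theorem reg_eg (G : Type) [Group G] [Finite G] (φ : (L ≃ₐ[K] L) →* MulAut G) (n : ℕ)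
    (hn : ub (Nat.card G) (Nat.card G ^ Nat.card G) ≤ n) :
    RegSol K L (EG φ n) SemidirectProduct.rightHom := by
  classical
  let L₀ := IntermediateField.fixedField φ.ker
  have hgal : IsGalois K L₀ := IsGalois.of_fixedField_normal_subgroup φ.ker
  let res : (L ≃ₐ[K] L) →* (L₀ ≃ₐ[K] L₀) := AlgEquiv.restrictNormalHom L₀
  have hres : Function.Surjective res := AlgEquiv.restrictNormalHom_surjective L
  have hker : res.ker = φ.ker := by
    ext σ
    rw [MonoidHom.mem_ker]
    constructor
    · intro h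
      have h1 : σ ∈ L₀.fixingSubgroup := by
        rw [IntermediateField.mem_fixingSubgroup_iff]
        intro x hx
        have h2 := AlgEquiv.restrictNormal_commutes σ L₀ (⟨x, hx⟩ : L₀)
        have h3 : σ.restrictNormal L₀ = 1 := h
        rw [h3] at h2
        exact h2.symm
      rw [IntermediateField.fixingSubgroup_fixedField] at h1
      exact h1
    · intro h
      apply AlgEquiv.ext
      intro x
      apply Subtype.ext
      have h1 := AlgEquiv.restrictNormal_commutes σ L₀ x
      exact h1.trans (x.2 ⟨σ, h⟩)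
  let φ₀ : (L₀ ≃ₐ[K] L₀) →* MulAut G := res.liftOfSurjective hres ⟨φ, hker.le⟩
  have hφ₀ : ∀ σ, φ₀ (res σ) = φ σ := fun σ =>
    MonoidHom.liftOfRightInverse_comp_apply res _ (Function.rightInverse_surjInv hres)
      ⟨φ, hker.le⟩ σ
  have hinj₀ : Function.Injective φ₀ := by
    rw [injective_iff_map_eq_one]
    intro ρ hρ
    obtain ⟨σ, rfl⟩ := hres ρ
    rw [hφ₀] at hρ
    have h1 : σ ∈ res.ker := by rw [hker]; exact hρ
    exact h1
  have hcard : Nat.card (L₀ ≃ₐ[K] L₀) ≤ Nat.card G ^ Nat.card G :=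
    (Nat.card_le_card_of_injective _ hinj₀).trans (card_mulAut_le G)
  have hreg : RegSol K L₀ (EG φ₀ n) SemidirectProduct.rightHom :=
    (reg_all_bd K L₀ G φ₀ n ((ub_mono _ _ _ hcard).trans hn)).2
  let p : EG φ n →* EG φ₀ n := SemidirectProduct.map (MonoidHom.id _) res (fun ρ => by
    apply MonoidHom.ext
    intro x
    apply SemidirectProduct.ext
    · funext i
      change φ ρ (x.left i) = φ₀ (res ρ) (x.left i)
      rw [hφ₀]
    · rfl)
  refine reg_lift (SemidirectProduct.rightHom : EG φ₀ n →* (L₀ ≃ₐ[K] L₀))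
    (SemidirectProduct.rightHom : EG φ n →* (L ≃ₐ[K] L)) p ?_ ?_ ?_ hreg
  · intro e
    rfl
  · intro e he1 he2
    exact SemidirectProduct.ext (congrArg (fun z : EG φ₀ n => z.left) he1) he2
  · intro e₀ σ he
    refine ⟨⟨e₀.left, σ⟩, ?_, rfl⟩
    apply SemidirectProduct.ext
    · rfl
    · exact he.symm

/-- **All embedding problems with kernel `G ≀ S_n`.** -/
theorem reg_kernel (G : Type) [Group G] [Finite G] [Nontrivial G]
    (hZ : ∀ z : G, (∀ g, z * g = g * z) → z = 1) (T : Subgroup (MulAut G))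
    (hT : IsCompl T (MulAut.conj : G →* MulAut G).range) (n : ℕ) (hn : wb (Nat.card G) ≤ n)
    (X : Type) [Group X] (β : X →* (L ≃ₐ[K] L)) (hβ : Function.Surjective β)
    (ι : Wr G n ≃* β.ker) : RegSol K L X β := by
  obtain ⟨φ, Θ, hΘ⟩ := ext_classify (le_trans (le_max_left _ _) hn) hZ T hT β hβ ι
  exact reg_transport SemidirectProduct.rightHom β Θ hΘ
    (reg_eg K L G φ n (le_trans (le_max_right _ _) hn))

end reg

end Pool.Agent.TH59.WX
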