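import Mathlib
import Pool.Agent.TH59.WX.UE
import Pool.Agent.W200.IJ.CB

/-!
Explicit form of the bound, and solutions over Hilbertian fields.
-/

set_option autoImplicit false

namespace Pool.Agent.TH59.WX

open Pool.Agent.H391R2 (Wr)
open Pool.Agent.H391R2.T4 (EG RegSol finite_wr finite_eg HilbField)

set_option linter.unusedSectionVars false

theorem fac_bound (g : ℕ) (hg : 1 ≤ g) : wb g ≤ ((3 * g + 2).factorial) ^ 3 := by
  have h1 : (3 * g + 2).factorial = (3 * g + 2) * ((3 * g + 1) * (3 * g).factorial) := by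
    rw [Nat.factorial_succ, Nat.factorial_succ]
  have hf : 1 ≤ (3 * g).factorial := Nat.one_le_iff_ne_zero.2 (Nat.factorial_ne_zero _)
  have hgf : g.factorial ≤ (3 * g).factorial := Nat.factorial_le (by omega)
  have hgg : g ^ g ≤ (3 * g).factorial := by
    have h2 : g.factorial * (g + 1) ^ g ≤ (g + g).factorial := Nat.factorial_mul_pow_le_factorial
    have h3 : (g + g).factorial ≤ (3 * g).factorial := Nat.factorial_le (by omega)
    have h4 : g ^ g ≤ (g + 1) ^ g := Nat.pow_le_pow_left (by omega) g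
    have h5 : 1 ≤ g.factorial := Nat.one_le_iff_ne_zero.2 (Nat.factorial_ne_zero _)
    nlinarith
  have hP : 20 ≤ (3 * g + 2) * (3 * g + 1) := by nlinarith
  rw [h1]
  unfold wb ub nb Pool.Agent.W200.IK.bd
  generalize (3 * g).factorial = f at hf hgf hgg ⊢
  generalize g.factorial = f' at hgf ⊢
  generalize g ^ g = c at hgg ⊢
  have hff : f ≤ f ^ 3 := Nat.le_self_pow (by norm_num) f
  have hf3 : 1 ≤ f ^ 3 := Nat.one_le_pow _ _ hf
  have hfin : ((3 * g + 2) * ((3 * g + 1) * f)) ^ 3 = f ^ 3 * ((3 * g + 2) * (3 * g + 1)) ^ 3 := by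
    ring
  have key : ∀ x : ℕ, x ≤ ((3 * g + 2) * (3 * g + 1)) ^ 2 + 5 →
      f ^ 3 * x ≤ ((3 * g + 2) * ((3 * g + 1) * f)) ^ 3 := by
    intro x hx
    rw [hfin]
    refine Nat.mul_le_mul_left _ (hx.trans ?_)
    generalize (3 * g + 2) * (3 * g + 1) = P at hP
    nlinarith [Nat.zero_le (P ^ 2)]
  refine max_le ?_ (max_le ?_ ?_)
  · refine le_trans ?_ (key (2 * (g + 2)) (by nlinarith))
    exact Nat.le_mul_of_pos_left _ hf3
  · have e1 : f * (3 * g) ^ 2 + 1 ≤ f * (9 * g ^ 2 + 1) := by nlinarith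
    have e2 : 3 * g * c * (3 * g) + f + 1 ≤ f * (9 * g ^ 2 + 2) := by nlinarith [Nat.zero_le (g ^ 2)]
    have e3 := Nat.mul_le_mul e1 e2
    have e4 := Nat.mul_le_mul_left f e3
    refine le_trans ?_ (key ((9 * g ^ 2 + 1) * (9 * g ^ 2 + 2) + 5) ?_)
    · calc 3 + f * ((f * (3 * g) ^ 2 + 1) * (3 * g * c * (3 * g) + f + 1) + 2)
          = 3 + 2 * f + f * ((f * (3 * g) ^ 2 + 1) * (3 * g * c * (3 * g) + f + 1)) := by ring
        _ ≤ 3 * f ^ 3 + 2 * f ^ 3 + f * ((f * (9 * g ^ 2 + 1)) * (f * (9 * g ^ 2 + 2))) := by omega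
        _ = f ^ 3 * ((9 * g ^ 2 + 1) * (9 * g ^ 2 + 2) + 5) := by ring
    · have e5 : 9 * g ^ 2 + 2 ≤ (3 * g + 2) * (3 * g + 1) := by nlinarith
      have e6 : 9 * g ^ 2 + 1 ≤ (3 * g + 2) * (3 * g + 1) := by nlinarith
      have e7 := Nat.mul_le_mul e6 e5
      have e8 : ((3 * g + 2) * (3 * g + 1)) ^ 2 = ((3 * g + 2) * (3 * g + 1)) *
          ((3 * g + 2) * (3 * g + 1)) := sq _
      omega
  · have e0 : f' * g ^ 2 + 1 ≤ f * (g ^ 2 + 1) := by nlinarith [Nat.zero_le (g ^ 2)]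
    have e2 : f' + c * (g + 2) ≤ f * (g + 3) := by nlinarith
    have e3 := Nat.mul_le_mul e0 e2
    have e4 := Nat.mul_le_mul hgf e3
    refine le_trans ?_ (key ((g ^ 2 + 1) * (g + 3) + 5) ?_)
    · calc 3 + f' * ((f' * g ^ 2 + 1) * (f' + c * (g + 2)) + 2)
          = 3 + 2 * f' + f' * ((f' * g ^ 2 + 1) * (f' + c * (g + 2))) := by ring
        _ ≤ 3 * f ^ 3 + 2 * f ^ 3 + f * ((f * (g ^ 2 + 1)) * (f * (g + 3))) := by omega
        _ = f ^ 3 * ((g ^ 2 + 1) * (g + 3) + 5) := by ring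
    · have e5 : g + 3 ≤ (3 * g + 2) * (3 * g + 1) := by nlinarith
      have e6 : g ^ 2 + 1 ≤ (3 * g + 2) * (3 * g + 1) := by nlinarith
      have e7 := Nat.mul_le_mul e6 e5
      have e8 : ((3 * g + 2) * (3 * g + 1)) ^ 2 = ((3 * g + 2) * (3 * g + 1)) *
          ((3 * g + 2) * (3 * g + 1)) := sq _
      omega

/-- Proper solutions over a Hilbertian field from regular ones. -/
theorem hil_of_reg (K L X : Type) [Field K] [Field L] [Algebra K L] [FiniteDimensional K L]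
    [IsGalois K L] [Group X] [Finite X] (hK : HilbField K) (β : X →* (L ≃ₐ[K] L))
    (h : RegSol K L X β) :
    ∃ (F : Type) (_ : Field F) (_ : Algebra K F) (_ : Algebra L F)
          (_ : IsScalarTower K L F),
          FiniteDimensional K F ∧ IsGalois K F ∧
          ∃ γ : (F ≃ₐ[K] F) ≃* X, ∀ σ : F ≃ₐ[K] F, β (γ σ) = σ.restrictNormal L := by
  obtain ⟨F, i1, i2, i3, i4, i5, i6, i7, i8, γ, hγ, -⟩ := h
  exact H33.hilbert_spec K hK L X β ⟨F, i1, i2, i3, i4, i5, i6, i7, i8, γ, hγ⟩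

theorem finite_of_kernel {X Γ W : Type} [Group X] [Group Γ] [Group W] [Finite Γ] [Finite W]
    (β : X →* Γ) (ι : W ≃* β.ker) : Finite X := by
  have h1 : Finite β.ker := Finite.of_equiv _ ι.toEquiv
  have h2 : Finite β.range := inferInstance
  have h3 : Finite (X ⧸ β.ker) :=
    Finite.of_equiv _ (QuotientGroup.quotientKerEquivRange β).symm.toEquiv
  exact Finite.of_equiv _ (Subgroup.groupEquivQuotientProdSubgroup (s := β.ker)).symm

end Pool.Agent.TH59.WX
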