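import Mathlib
import Pool.Agent.TH59.WX.UF
import Pool.Agent.H391R2.WrRes
import Pool.Agent.H391R2.T4.Fin
import Pool.Agent.W200.IG.HG

/-!
Realizability of extensions by wreath products.
-/

set_option autoImplicit false

namespace Pool.Agent.TH59.WX

open Nfff32c05
open Pool.Agent.H391R2 (Wr isRealizable_of isRealizable_quotient)
open Pool.Agent.H391R2.T4 (EG RegSol finite_wr finite_eg HilbField)
open Pool.Agent.W200.IG (HP SP hp_base sp_base sp_poly galois_spec)

set_option linter.unusedSectionVars false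

/-- A realization of a finite group. -/
theorem exists_gal_of (K X : Type) [Field K] [Group X] [Finite X] (h : IsRealizable K X) :
    ∃ (L : Type) (_ : Field L) (_ : Algebra K L) (_ : FiniteDimensional K L) (_ : IsGalois K L),
      Nonempty (X ≃* (L ≃ₐ[K] L)) := by
  obtain ⟨⟨⟨L, i1, i2, i3, e⟩⟩⟩ := h
  have hfin : Finite (L ≃ₐ[K] L) := Finite.of_equiv _ e.toEquiv
  exact ⟨L, i1, i2, IsGalois.finiteDimensional_of_finite K L, i3, ⟨e⟩⟩

section ext

variable (K : Type) [Field K]
  (hspec : ∀ (L X : Type) [Field L] [Algebra K L] [FiniteDimensional K L] [IsGalois K L]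
    [Group X] [Finite X] (β : X →* (L ≃ₐ[K] L)), RegSol K L X β → IsRealizable K X)

include hspec in
theorem ext_realizable (G : Type) [Group G] [Finite G] [Nontrivial G]
    (hZ : ∀ z : G, (∀ g, z * g = g * z) → z = 1) (T : Subgroup (MulAut G))
    (hT : IsCompl T (MulAut.conj : G →* MulAut G).range) (n : ℕ)
    (hn : ((3 * Nat.card G + 2).factorial) ^ 3 ≤ n)
    (X : Type) [Group X] [Finite X] (N : Subgroup X) [N.Normal] (e : N ≃* Wr G n) :
    IsRealizable K X ↔ IsRealizable K (X ⧸ N) := by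
  constructor
  · intro h
    obtain ⟨L, i1, i2, i3, i4, ⟨f⟩⟩ := exists_gal_of K X h
    exact isRealizable_quotient L ((QuotientGroup.mk' N).comp f.symm.toMonoidHom)
      ((QuotientGroup.mk'_surjective N).comp f.symm.surjective)
  · intro h
    obtain ⟨L, i1, i2, i3, i4, ⟨f⟩⟩ := exists_gal_of K (X ⧸ N) h
    let β : X →* (L ≃ₐ[K] L) := f.toMonoidHom.comp (QuotientGroup.mk' N)
    have hβ : Function.Surjective β := f.surjective.comp (QuotientGroup.mk'_surjective N)
    have hker : N = β.ker := by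
      ext x
      rw [MonoidHom.mem_ker]
      change x ∈ N ↔ f (QuotientGroup.mk' N x) = 1
      rw [map_eq_one_iff f f.injective, QuotientGroup.mk'_apply, QuotientGroup.eq_one_iff]
    exact hspec L X β (reg_kernel K L G hZ T hT n
      ((fac_bound _ Nat.card_pos).trans hn) X β hβ (e.symm.trans (MulEquiv.subgroupCongr hker)))

end ext

/-- Hilbertian fields. -/
theorem ext_realizable_hilb (K : Type) [Field K] (hK : HilbField K)
    (G : Type) [Group G] [Finite G] [Nontrivial G]
    (hZ : ∀ z : G, (∀ g, z * g = g * z) → z = 1) (T : Subgroup (MulAut G))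
    (hT : IsCompl T (MulAut.conj : G →* MulAut G).range) (n : ℕ)
    (hn : ((3 * Nat.card G + 2).factorial) ^ 3 ≤ n)
    (X : Type) [Group X] [Finite X] (N : Subgroup X) [N.Normal] (e : N ≃* Wr G n) :
    IsRealizable K X ↔ IsRealizable K (X ⧸ N) := by
  refine ext_realizable K ?_ G hZ T hT n hn X N e
  intro L X _ _ _ _ _ _ β h
  obtain ⟨F, j1, j2, j3, j4, j5, j6, γ, -⟩ := hil_of_reg K L X hK β h
  exact isRealizable_of F γ.symm

/-- Rational function fields over finite fields. -/
theorem ext_realizable_ratFunc (κ : Type) [Field κ] [Finite κ]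
    (G : Type) [Group G] [Finite G] [Nontrivial G]
    (hZ : ∀ z : G, (∀ g, z * g = g * z) → z = 1) (T : Subgroup (MulAut G))
    (hT : IsCompl T (MulAut.conj : G →* MulAut G).range) (n : ℕ)
    (hn : ((3 * Nat.card G + 2).factorial) ^ 3 ≤ n)
    (X : Type) [Group X] [Finite X] (N : Subgroup X) [N.Normal] (e : N ≃* Wr G n) :
    IsRealizable (RatFunc κ) X ↔ IsRealizable (RatFunc κ) (X ⧸ N) := by
  refine ext_realizable (RatFunc κ) ?_ G hZ T hT n hn X N e
  intro L X _ _ _ _ _ _ β h
  obtain ⟨F, i1, i2, i3, i4, i5, i6, i7, i8, γ, hγ, -⟩ := h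
  have hinf : Infinite (RatFunc κ) :=
    Infinite.of_injective _ (IsFractionRing.injective (Polynomial κ) (RatFunc κ))
  have hp : HP (RatFunc κ) (RatFunc κ) := hp_base (κ := κ) (RatFunc κ)
  obtain ⟨Λ, l1, l2, ⟨l3, l4⟩, ⟨e⟩⟩ := galois_spec (K := RatFunc κ)
    (A := Polynomial (RatFunc κ)) (F := RatFunc (RatFunc κ)) (N := F)
    (sp_poly hp (sp_base (RatFunc κ)))
  exact isRealizable_of Λ (γ.symm.trans e)

end Pool.Agent.TH59.WX
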