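import Mathlib
import Pool.Agent.TH59.WX.UF

/-!
Embedding problems with kernel a wreath product: final forms.
-/

set_option autoImplicit false

namespace Pool.Agent.TH59.WX

open Pool.Agent.H391R2 (Wr)
open Pool.Agent.H391R2.T4 (EG RegSol HilbField)

theorem split_kernel {G Γ X : Type} [Group G] [Finite G] [Nontrivial G] [Group Γ] [Group X]
    (hZ : Subgroup.center G = ⊥)
    (hT : ∃ T : Subgroup (MulAut G), IsCompl T (MulAut.conj : G →* MulAut G).range) (n : ℕ)
    (hn : ((3 * Nat.card G + 2).factorial) ^ 3 ≤ n)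
    (β : X →* Γ) (hβ : Function.Surjective β) (hι : Nonempty (β.ker ≃* Wr G n)) :
    ∃ s : Γ →* X, ∀ τ, β (s τ) = τ := by
  obtain ⟨T, hT⟩ := hT
  obtain ⟨ι⟩ := hι
  have hZ' : ∀ z : G, (∀ g, z * g = g * z) → z = 1 := fun z hz => by
    have h1 : z ∈ Subgroup.center G := Subgroup.mem_center_iff.2 fun g => (hz g).symm
    rw [hZ] at h1
    exact h1
  obtain ⟨φ, Θ, hΘ⟩ := ext_classify (le_trans (le_max_left _ _)
    ((fac_bound _ Nat.card_pos).trans hn)) hZ' T hT β hβ ι.symm
  refine ⟨Θ.symm.toMonoidHom.comp SemidirectProduct.inr, fun τ => ?_⟩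
  rw [← hΘ]
  change (Θ (Θ.symm (SemidirectProduct.inr τ))).right = τ
  rw [MulEquiv.apply_symm_apply]
  rfl

theorem reg_kernel' {G : Type} [Group G] [Finite G] [Nontrivial G]
    (hZ : Subgroup.center G = ⊥)
    (hT : ∃ T : Subgroup (MulAut G), IsCompl T (MulAut.conj : G →* MulAut G).range) (n : ℕ)
    (hn : ((3 * Nat.card G + 2).factorial) ^ 3 ≤ n)
    (K L X : Type) [Field K] [Field L] [Algebra K L] [FiniteDimensional K L] [IsGalois K L]
    [Group X] (β : X →* (L ≃ₐ[K] L)) (hβ : Function.Surjective β)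
    (hι : Nonempty (β.ker ≃* Wr G n)) : RegSol K L X β := by
  obtain ⟨T, hT⟩ := hT
  obtain ⟨ι⟩ := hι
  have hZ' : ∀ z : G, (∀ g, z * g = g * z) → z = 1 := fun z hz => by
    have h1 : z ∈ Subgroup.center G := Subgroup.mem_center_iff.2 fun g => (hz g).symm
    rw [hZ] at h1
    exact h1
  exact reg_kernel K L G hZ' T hT n ((fac_bound _ Nat.card_pos).trans hn) X β hβ ι.symm

end Pool.Agent.TH59.WX
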