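import Mathlib
import Pool.Agent.TH59.WX.PF
import Pool.Agent.TH59.WX.UI
import Pool.Agent.TH59.WX.UG

/-!
# Embedding problems whose kernel is a direct product of wreath products `G ≀ S_n`: final forms
-/

set_option autoImplicit false

namespace Pool.Agent.TH59.WX

open Nfff32c05
open Pool.Agent.H391R2 (Wr isRealizable_of isRealizable_quotient)
open Pool.Agent.H391R2.T4 (RegSol HilbField finite_wr)
open Pool.Agent.W200.IG (HP SP hp_base sp_base sp_poly galois_spec)

set_option linter.unusedSectionVars false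

section prod

variable {ι : Type} [Finite ι] {G : ι → Type} [∀ i, Group (G i)] [∀ i, Finite (G i)]
  [∀ i, Nontrivial (G i)] {n : ι → ℕ} (hZ : ∀ i, Subgroup.center (G i) = ⊥)
  (hT : ∀ i, ∃ T : Subgroup (MulAut (G i)), IsCompl T (MulAut.conj : G i →* MulAut (G i)).range)
  (hn : ∀ i, ((3 * Nat.card (G i) + 2).factorial) ^ 3 ≤ n i)

include hZ hT hn

theorem good_prod_wr : GoodKer (∀ i, Wr (G i) (n i)) := by
  have hfin : ∀ i, Finite (Wr (G i) (n i)) := fun i => finite_wr (G i) (n i)
  have hn2 : ∀ i, 2 ≤ n i := by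
    intro i
    refine le_trans ?_ (hn i)
    have h1 : 3 * Nat.card (G i) + 2 ≤ (3 * Nat.card (G i) + 2).factorial :=
      Nat.self_le_factorial _
    have h2 : (3 * Nat.card (G i) + 2).factorial ≤ ((3 * Nat.card (G i) + 2).factorial) ^ 3 :=
      Nat.le_self_pow (by norm_num) _
    omega
  refine prod_good ι _ (fun i => ?_) (fun i => ?_) (fun i => ?_)
  · refine wr_indec (fun z hz => ?_) (hn2 i)
    have h1 : z ∈ Subgroup.center (G i) := Subgroup.mem_center_iff.2 fun g => (hz g).symm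
    rw [hZ i] at h1
    exact h1
  · obtain ⟨g, hg⟩ := exists_ne (1 : G i)
    have h0 : 0 < n i := lt_of_lt_of_le (by norm_num) (hn2 i)
    exact ⟨⟨sgl ⟨0, h0⟩ g, 1, fun h => hg (sgl_inj (h.trans (sgl_one _).symm))⟩⟩
  · intro K L X _ _ _ _ _ _ _ α hα hι
    exact reg_kernel' (hZ i) (hT i) (n i) (hn i) K L X α hα hι

theorem reg_prod (K L X : Type) [Field K] [Field L] [Algebra K L] [FiniteDimensional K L]
    [IsGalois K L] [Group X] (α : X →* (L ≃ₐ[K] L)) (hα : Function.Surjective α)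
    (hι : Nonempty (α.ker ≃* (∀ i, Wr (G i) (n i)))) : RegSol K L X α := by
  have hfin : ∀ i, Finite (Wr (G i) (n i)) := fun i => finite_wr (G i) (n i)
  exact good_all (good_prod_wr hZ hT hn) K L X α hα hι

theorem hil_prod (K : Type) [Field K] (hK : HilbField K) (L X : Type) [Field L] [Algebra K L]
    [FiniteDimensional K L] [IsGalois K L] [Group X] (α : X →* (L ≃ₐ[K] L))
    (hα : Function.Surjective α) (hι : Nonempty (α.ker ≃* (∀ i, Wr (G i) (n i)))) :
    ∃ (F : Type) (_ : Field F) (_ : Algebra K F) (_ : Algebra L F)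
          (_ : IsScalarTower K L F),
          FiniteDimensional K F ∧ IsGalois K F ∧
          ∃ γ : (F ≃ₐ[K] F) ≃* X, ∀ σ : F ≃ₐ[K] F, α (γ σ) = σ.restrictNormal L := by
  have hfin : ∀ i, Finite (Wr (G i) (n i)) := fun i => finite_wr (G i) (n i)
  have hfinX : Finite X := finite_of_kernel α hι.some.symm
  exact hil_of_reg K L X hK α (reg_prod hZ hT hn K L X α hα hι)

theorem real_prod (K : Type) [Field K]
    (hspec : ∀ (L X : Type) [Field L] [Algebra K L] [FiniteDimensional K L] [IsGalois K L]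
      [Group X] [Finite X] (β : X →* (L ≃ₐ[K] L)), RegSol K L X β → IsRealizable K X)
    (X : Type) [Group X] [Finite X] (N : Subgroup X) [N.Normal]
    (hN : Nonempty (N ≃* (∀ i, Wr (G i) (n i)))) :
    IsRealizable K X ↔ IsRealizable K (X ⧸ N) := by
  constructor
  · intro h
    obtain ⟨L, i1, i2, i3, i4, ⟨f⟩⟩ := exists_gal_of K X h
    exact isRealizable_quotient L ((QuotientGroup.mk' N).comp f.symm.toMonoidHom)
      ((QuotientGroup.mk'_surjective N).comp f.symm.surjective)
  · intro h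
    obtain ⟨L, i1, i2, i3, i4, ⟨f⟩⟩ := exists_gal_of K (X ⧸ N) h
    let β : X →* (L ≃ₐ[K] L) := f.toMonoidHom.comp (QuotientGroup.mk' N)
    have hβ : Function.Surjective β := f.surjective.comp (QuotientGroup.mk'_surjective N)
    have hker : β.ker = N := by
      ext x
      rw [MonoidHom.mem_ker]
      change f (QuotientGroup.mk' N x) = 1 ↔ x ∈ N
      rw [map_eq_one_iff f f.injective, QuotientGroup.mk'_apply, QuotientGroup.eq_one_iff]
    exact hspec L X β (reg_prod hZ hT hn K L X β hβ ⟨(MulEquiv.subgroupCongr hker).trans hN.some⟩)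

theorem real_prod_hilb (K : Type) [Field K] (hK : HilbField K)
    (X : Type) [Group X] [Finite X] (N : Subgroup X) [N.Normal]
    (hN : Nonempty (N ≃* (∀ i, Wr (G i) (n i)))) :
    IsRealizable K X ↔ IsRealizable K (X ⧸ N) := by
  refine real_prod hZ hT hn K ?_ X N hN
  intro L X _ _ _ _ _ _ β h
  obtain ⟨F, j1, j2, j3, j4, j5, j6, γ, -⟩ := hil_of_reg K L X hK β h
  exact isRealizable_of F γ.symm

theorem real_prod_ratFunc (κ : Type) [Field κ] [Finite κ]
    (X : Type) [Group X] [Finite X] (N : Subgroup X) [N.Normal]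
    (hN : Nonempty (N ≃* (∀ i, Wr (G i) (n i)))) :
    IsRealizable (RatFunc κ) X ↔ IsRealizable (RatFunc κ) (X ⧸ N) := by
  refine real_prod hZ hT hn (RatFunc κ) ?_ X N hN
  intro L X _ _ _ _ _ _ β h
  obtain ⟨F, i1, i2, i3, i4, i5, i6, i7, i8, γ, hγ, -⟩ := h
  have hinf : Infinite (RatFunc κ) :=
    Infinite.of_injective _ (IsFractionRing.injective (Polynomial κ) (RatFunc κ))
  have hp : HP (RatFunc κ) (RatFunc κ) := hp_base (κ := κ) (RatFunc κ)
  obtain ⟨Λ, l1, l2, ⟨l3, l4⟩, ⟨e⟩⟩ := galois_spec (K := RatFunc κ)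
    (A := Polynomial (RatFunc κ)) (F := RatFunc (RatFunc κ)) (N := F)
    (sp_poly hp (sp_base (RatFunc κ)))
  exact isRealizable_of Λ (γ.symm.trans e)

end prod

end Pool.Agent.TH59.WX
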