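import Mathlib
import Pool.Agent.TH59.WX.UF

/-!
Symmetric fibre powers of weakly solvable embedding problems, with a bound that depends only on the
order of the kernel.
-/

set_option autoImplicit false

namespace Pool.Agent.TH59.WX

open Pool.Agent.H391R2 (Wr)
open Pool.Agent.H391R2.T4 (EG RegSol SymEP symProj symMap symMap_surjective actS WeakSol SolOver
  SolDeg regSol_iff sym_degree finite_sym HilbField)
open Pool.Agent.W200.IJ (regSol_quot)

set_option linter.unusedSectionVars false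

theorem ub_le_fac (g : ℕ) (hg : 1 ≤ g) : ub g (g ^ g) ≤ ((3 * g + 2).factorial) ^ 3 :=
  le_trans (le_max_right _ _) (fac_bound g hg)

section sym

variable (K L E : Type) [Field K] [Field L] [Algebra K L]
    [FiniteDimensional K L] [IsGalois K L] [Group E] [Finite E]
    (α : E →* (L ≃ₐ[K] L))

theorem reg_sym_unif (hw : WeakSol K L E α) (n : ℕ)
    (hn : ((3 * Nat.card α.ker + 2).factorial) ^ 3 ≤ n) :
    RegSol K L (SymEP α n) (symProj α n) := by
  obtain ⟨L', i1, i2, i3, i4, i5, i6, s, hs⟩ := hw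
  have hreg := reg_eg K L' α.ker (actS α s) n ((ub_le_fac _ Nat.card_pos).trans hn)
  let res : (L' ≃ₐ[K] L') →* (L ≃ₐ[K] L) := AlgEquiv.restrictNormalHom L
  have hs' : ∀ ρ, α (s ρ) = res ρ := hs
  refine regSol_quot (symProj α n) SemidirectProduct.rightHom (symMap α res s hs' n)
    (symMap_surjective α res s hs' (AlgEquiv.restrictNormalHom_surjective L') n)
    (fun g' => rfl) ?_ hreg
  intro ρ hρ
  have h1 : (s ρ)⁻¹ ∈ α.ker := by
    rw [MonoidHom.mem_ker, map_inv, hs, hρ, inv_one]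
  refine ⟨⟨⟨fun i => ⟨_, h1⟩, 1⟩, ρ⟩, ?_, rfl⟩
  apply Subtype.ext
  apply Prod.ext
  · apply SemidirectProduct.ext
    · funext i
      change (s ρ)⁻¹ * s ρ = 1
      rw [inv_mul_cancel]
    · rfl
  · exact hρ

theorem fac_pos (n : ℕ) (hn : ((3 * Nat.card α.ker + 2).factorial) ^ 3 ≤ n) : 0 < n :=
  lt_of_lt_of_le (pow_pos (Nat.factorial_pos _) 3) hn

theorem reg_fin_unif (hw : WeakSol K L E α) (n : ℕ)
    (hn : ((3 * Nat.card α.ker + 2).factorial) ^ 3 ≤ n) :
    SolOver K L (SymEP α n) (symProj α n) (RatFunc K) True ∧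
    SolDeg K L E α (RatFunc K) n True := by
  have hreg := reg_sym_unif K L E α hw n hn
  have h0 := fac_pos K L E α n hn
  have h1 := (regSol_iff K L (SymEP α n) (symProj α n)).1 hreg
  refine ⟨h1, ?_⟩
  obtain ⟨M, a1, a2, a3, ψ, a4, a5, h2⟩ := sym_degree α n ⟨0, h0⟩ True h1
  exact ⟨M, a1, a2, a3, ψ, ⟨0, h0⟩, a4, a5, h2⟩

theorem hil_fin_unif (hK : HilbField K) (hw : WeakSol K L E α) (n : ℕ)
    (hn : ((3 * Nat.card α.ker + 2).factorial) ^ 3 ≤ n) :
    SolOver K L (SymEP α n) (symProj α n) K False ∧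
    SolDeg K L E α K n False := by
  have h0 := fac_pos K L E α n hn
  obtain ⟨F, i1, i2, i3, i4, i5, i6, i7, i8, γ, hγ, -⟩ := reg_sym_unif K L E α hw n hn
  obtain ⟨F', j1, j2, j3, j4, j5, j6, γ', hγ'⟩ := H33.hilbert_spec K hK L (SymEP α n)
    (symProj α n) ⟨F, i1, i2, i3, i4, i5, i6, i7, i8, γ, hγ⟩
  have h1 : SolOver K L (SymEP α n) (symProj α n) K False := by
    refine ⟨F', j1, j2, j3, j2, inferInstance, j4, j5, j6, γ', ?_, fun h => h.elim⟩
    intro σ x
    rw [hγ', AlgEquiv.restrictNormal_commutes]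
  refine ⟨h1, ?_⟩
  obtain ⟨M, a1, a2, a3, ψ, a4, a5, h2⟩ := sym_degree α n ⟨0, h0⟩ False h1
  exact ⟨M, a1, a2, a3, ψ, ⟨0, h0⟩, a4, a5, h2⟩

end sym

end Pool.Agent.TH59.WX
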